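import Pool.Agent.H49.KT.Targets

/-!
Board kt_modules, module LD: loading the input of the simulated machine.
-/

namespace Pool.Agent.H67.KT

open Turing Function
open Pool.Agent.H49.KT

theorem pf_LD : T_LD := by
  intro U v u z hz
  have e1 := sp_lp (v := v) (u := u) (z := z) (x := .d) (c := .seq (pusha .d') pushk) (z .d) rfl
    (fun _ => v)
    (fun i => update u U.tm.k₀
      ((((z .d).take i).map U.inputAlphabet.symm).reverse ++ u U.tm.k₀))
    (fun i => update (update z .d []) .d' ((z .d).take i).reverse) (fun _ => 2)
    ⟨v.a, rfl⟩ (by
      simp only [List.take_zero, List.map_nil, List.reverse_nil, List.nil_append]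
      exact update_eq_self _ _) (by
      simp only [List.take_zero, List.reverse_nil]
      rw [update_eq_iff]
      refine ⟨?_, fun _ _ => rfl⟩
      rw [update_of_ne (by decide), hz]) (fun i hi => by
      refine ⟨(z .d)[i], ?_⟩
      have e1 := sp_pusha (v.sa (z .d)[i]) (update u U.tm.k₀
        ((((z .d).take i).map U.inputAlphabet.symm).reverse ++ u U.tm.k₀))
        (update (update z .d []) .d' ((z .d).take i).reverse) .d'
      have e2 := e1.seq (sp_pushk _ _ _)
      simp only [update_self, update_idem] at e2
      have h1 : (((z .d).take (i + 1)).map U.inputAlphabet.symm).reverse =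
          U.inputAlphabet.symm (z .d)[i] ::
            (((z .d).take i).map U.inputAlphabet.symm).reverse := by
        rw [← List.map_reverse, ← List.map_reverse, take_succ_rev _ _ hi, List.map_cons]
      rw [take_succ_rev _ _ hi, h1, List.cons_append]
      exact e2)
  have e2 := e1.seq (sp_mv (v.sa false) _ _ (x := .d') (y := .d) (by decide))
  simp only [List.take_length] at e2
  have hzz : update (update (update (update z Nm.d []) Nm.d' (z Nm.d).reverse) Nm.d' []) Nm.d
      ((update (update z Nm.d []) Nm.d' (z Nm.d).reverse Nm.d').reverse ++
        update (update z Nm.d []) Nm.d' (z Nm.d).reverse Nm.d) = z := by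
    funext k
    by_cases h1 : k = .d
    · subst h1
      simp
    · rw [update_of_ne h1]
      by_cases h2 : k = .d'
      · subst h2
        rw [update_self, hz]
      · rw [update_of_ne h2, update_of_ne h2, update_of_ne h1]
  rw [hzz] at e2
  refine ⟨?_, e2.2.trans ?_⟩
  · rw [List.map_reverse]
    exact e2.1
  · simp
    omega

end Pool.Agent.H67.KT
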