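import Pool.Agent.H49.KT.UTargets

/-!
Board kt2_modules, module SYF: finitely many symbols.
-/

namespace Pool.Agent.H67.KT

open Turing Function
open Pool.Agent.H49.KT Pool.Agent.H49.KT.Uni

theorem pf_SYF : T_QS → T_SYF := by
  intro hQS V k
  obtain ⟨A, hA⟩ := (hQS V).2.2.2.2.2.2
  by_cases hk : k = V.tm.k₀
  · subst hk
    have := V.tm.Γk₀Fin
    exact ⟨Finset.univ.toList, fun g _ => by simp⟩
  · have hσ := V.tm.σFin
    have hfin : {g : V.tm.Γ k | Sy V k g}.Finite := by
      have h1 : (⋃ s ∈ {s | s ∈ A}, ⋃ a : V.tm.σ,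
          {g : V.tm.Γ k | ∃ f q, s = TM2.Stmt.push k f q ∧ f a = g}).Finite := by
        refine Set.Finite.biUnion (List.finite_toSet A) fun s _ => Set.finite_iUnion fun a => ?_
        refine Set.Subsingleton.finite ?_
        rintro g ⟨f, q, rfl, hf⟩ g' ⟨f', q', he, hf'⟩
        injection he with h2 h3 h4
        subst h3
        rw [← hf, ← hf']
      refine h1.subset ?_
      rintro g (h | ⟨q, f, a, hq, hf⟩)
      · exact absurd h hk
      · simp only [Set.mem_iUnion, Set.mem_setOf_eq]
        exact ⟨_, hA _ hq, a, f, q, rfl, hf⟩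
    exact ⟨hfin.toFinset.toList, fun g hg => by simpa using hg⟩

end Pool.Agent.H67.KT
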