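import Pool.Agent.H49.KT.Targets

/-!
Board kt_modules, module HT: one step changes the heights of the stacks by a bounded amount.
-/

namespace Pool.Agent.H67.KT

open Turing Function
open Pool.Agent.H49.KT

theorem stepAux_height {K : Type} [DecidableEq K] {Γ : K → Type} {Λ σ : Type}
    (q : TM2.Stmt Γ Λ σ) : ∃ B : ℕ, ∀ (v : σ) (S : ∀ k, List (Γ k)) (k : K),
      ((TM2.stepAux q v S).stk k).length ≤ (S k).length + B ∧
        (S k).length ≤ ((TM2.stepAux q v S).stk k).length + B := by
  induction q with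
  | push k' f q ih =>
    obtain ⟨B, hB⟩ := ih
    refine ⟨B + 1, fun v S k => ?_⟩
    have h := hB v (update S k' (f v :: S k')) k
    have h2 : TM2.stepAux (TM2.Stmt.push k' f q) v S =
      TM2.stepAux q v (update S k' (f v :: S k')) := rfl
    rw [h2]
    by_cases hk : k = k'
    · subst hk
      rw [update_self, List.length_cons] at h
      omega
    · rw [update_of_ne hk] at h
      omega
  | peek k' f q ih =>
    obtain ⟨B, hB⟩ := ih
    exact ⟨B, fun v S k => hB _ S k⟩
  | pop k' f q ih =>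
    obtain ⟨B, hB⟩ := ih
    refine ⟨B + 1, fun v S k => ?_⟩
    have h := hB (f v (S k').head?) (update S k' (S k').tail) k
    have h2 : TM2.stepAux (TM2.Stmt.pop k' f q) v S =
      TM2.stepAux q (f v (S k').head?) (update S k' (S k').tail) := rfl
    rw [h2]
    by_cases hk : k = k'
    · subst hk
      rw [update_self, List.length_tail] at h
      omega
    · rw [update_of_ne hk] at h
      omega
  | load f q ih =>
    obtain ⟨B, hB⟩ := ih
    exact ⟨B, fun v S k => hB _ S k⟩
  | branch p q₁ q₂ ih₁ ih₂ =>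
    obtain ⟨B₁, hB₁⟩ := ih₁
    obtain ⟨B₂, hB₂⟩ := ih₂
    refine ⟨B₁ + B₂, fun v S k => ?_⟩
    have h₁ := hB₁ v S k
    have h₂ := hB₂ v S k
    cases hp : p v
    · have h3 : TM2.stepAux (TM2.Stmt.branch p q₁ q₂) v S = TM2.stepAux q₂ v S := by
        simp [TM2.stepAux, hp]
      rw [h3]
      omega
    · have h3 : TM2.stepAux (TM2.Stmt.branch p q₁ q₂) v S = TM2.stepAux q₁ v S := by
        simp [TM2.stepAux, hp]
      rw [h3]
      omega
  | goto f => exact ⟨0, fun v S k => ⟨le_rfl, le_rfl⟩⟩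
  | halt => exact ⟨0, fun v S k => ⟨le_rfl, le_rfl⟩⟩

theorem pf_HT : T_HT := by
  intro U
  have := U.tm.ΛFin
  choose B hB using fun l : U.tm.Λ => stepAux_height (U.tm.m l)
  refine ⟨∑ l : U.tm.Λ, B l, fun c k => ?_⟩
  obtain ⟨l, v, S⟩ := c
  cases l with
  | none => exact ⟨Nat.le_add_right _ _, Nat.le_add_right _ _⟩
  | some l =>
    have h := hB l v S k
    have h2 : fs U ⟨some l, v, S⟩ = TM2.stepAux (U.tm.m l) v S := rfl
    have h3 : B l ≤ ∑ l : U.tm.Λ, B l :=
      Finset.single_le_sum (f := B) (fun _ _ => Nat.zero_le _) (Finset.mem_univ l)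
    rw [h2]
    show (_ ≤ (S k).length + _) ∧ (S k).length ≤ _
    omega

end Pool.Agent.H67.KT
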